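import Pool.Agent.R341.DiH

open Set MeasureTheory

namespace Pool.Agent.Results.MP_613544_nt.FullDimension

/-- The critical radius `r₂ = (2/√3)^{1/2}` of the Euclidean norm in the plane. -/
noncomputable def critRadius : ℝ := √(2 / √3)

/-- Euclidean Dirichlet-improvable reals: for some `c < 1` and all large `t` there are integers
`(p,q) ≠ (0,0)` with `(t(p+qx)/c)² + (q/t)² ≤ r₂²`. -/
def DI2 : Set ℝ :=
  {x | ∃ c : ℝ, 0 < c ∧ c < 1 ∧ ∃ T : ℝ, 0 < T ∧ ∀ t : ℝ, T < t →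
    ∃ p q : ℤ, ¬ (p = 0 ∧ q = 0) ∧
      (t * (p + q * x) / c) ^ 2 + (q / t) ^ 2 ≤ critRadius ^ 2}

/-- Badly approximable reals. -/
def BA : Set ℝ :=
  {x | ∃ ε : ℝ, 0 < ε ∧ ∀ p q : ℤ, q ≠ 0 → ε ≤ |(q : ℝ) * x - p| * |(q : ℝ)|}

/-- The set of Euclidean Dirichlet-improvable reals that are not badly approximable has full
Hausdorff dimension. -/
theorem result : dimH (DI2 \ BA) = 1 := Pool.Agent.R341.DI.full_dim

end Pool.Agent.Results.MP_613544_nt.FullDimension
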